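import Pool.Agent.ETH8.Fr

/-!
# The exchanged kinds at a symbol form the complement of a line (helper69, 69P Step 5)
-/

set_option autoImplicit false
set_option linter.unusedSectionVars false
set_option linter.unusedSimpArgs false

namespace Pool.Agent.ETH8

open Pool.Agent.Helper58.PLine (QData zm zm_ne_zero)
open Pool.Agent.ETCP
open Pool.Agent.ETAL

variable {V Q : Type} [AddCommGroup V] [Module (ZMod 2) V] {D : QData V Q}

/-- the world: every element outside `V_y` has a hyperplane kind, `V / V_y` has order 8 -/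
structure Wd (D : QData V Q) (y : V) : Prop where
  he : D.e = 0
  hK : ∀ x, ¬ C D y x → ∃ f, Kd D y x f
  fr : ∃ p q r, Fr D y p q r

theorem aa (f : V →ₗ[ZMod 2] ZMod 2) : f + f = 0 := by
  ext v; exact CharTwo.add_self_eq_zero _

theorem aab (f g : V →ₗ[ZMod 2] ZMod 2) : f + (f + g) = g := by
  rw [← add_assoc, aa, zero_add]

theorem eqp {v x y : V} (h : C D y (v + x)) {f : V →ₗ[ZMod 2] ZMod 2}
    (hf : ∀ v, C D y v → f v = 0) : f v = f x := by
  have := hf _ h
  rw [map_add] at this
  exact zadd this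

theorem nC {y v x : V} (h : C D y (v + x)) (hx : ¬ C D y x) : ¬ C D y v := fun h1 => hx (by
  have := h1.add h
  rwa [s3] at this)

section

variable [Finite V] {y : V} {b : Q}

/-- `stepC` in a frame -/
theorem stepC' {p q r : V →ₗ[ZMod 2] ZMod 2} (F : Fr D y p q r) {x z : V}
    (K : Kd D y x (p + q)) (hx : ¬ C D y x) (hb : D.q x z = b) (hp : Dd D y b p)
    (hq : Dd D y b q) (px : p x = 0) (qx : q x = 0) : False := by
  obtain ⟨e', pe, qe, -⟩ := F.sur 1 1 0
  have rx : r x = 1 := by
    rcases zm (r x) with h | h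
    · exact absurd (F.ker x px qx h) hx
    · exact h
  refine stepC K hb hp hq px qx pe qe fun v pv qv => ?_
  rcases zm (r v) with h | h
  · exact Or.inl (F.ker v pv qv h)
  · refine Or.inr (F.ker _ ?_ ?_ ?_)
    · rw [map_add, pv, px, add_zero]
    · rw [map_add, qv, qx, add_zero]
    · rw [map_add, h, rx]; decide

/-- an exchanged kind not vanishing at `a` produces slots of `b` in `Y_a` -/
theorem Dd.hits {f : V →ₗ[ZMod 2] ZMod 2} (h : Dd D y b f) {a : V} (fa : f a = 1) :
    ∃ x z, C D y (x + a) ∧ D.q x z = b := by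
  obtain ⟨v, z, -, K, h1, h2⟩ := h
  obtain ⟨z', h3, h4⟩ := K.hit (z := z) (a := a) (by rw [h2, fa])
  exact ⟨z', v, h3, by rw [q_symm, h4, h1]⟩

/-- no line of exchanged kinds -/
theorem nl (X : Wd D y) {p q r : V →ₗ[ZMod 2] ZMod 2} (F : Fr D y p q r) (hp : Dd D y b p)
    (hq : Dd D y b q) (hpq : Dd D y b (p + q)) : False := by
  obtain ⟨e, pe, qe, re⟩ := F.sur 0 0 1
  have he : ¬ C D y e := fun h => by
    rw [F.vr e h] at re; exact absurd re (by decide)
  -- no slot of `b` in `Y_e`
  have h1 : ∀ x z, C D y (x + e) → D.q x z ≠ b := by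
    intro x z hxe hb
    have hx := nC hxe he
    obtain ⟨g, K⟩ := X.hK x hx
    have px : p x = 0 := by rw [eqp hxe F.vp, pe]
    have qx : q x = 0 := by rw [eqp hxe F.vq, qe]
    have ge : g e = 0 := by rw [← eqp hxe fun v h => K.vy h, K.self]
    rcases F.two (fun v h => K.vy h) pe qe he ge with rfl | rfl | rfl | rfl
    · exact K.ne rfl
    · -- `p = q + (p + q)`
      have e1 : g = q + (g + q) := by rw [add_comm g q, aab]
      have F' : Fr D y q (q + g) r := F.swp.tr
      rw [add_comm q g] at F'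
      rw [e1] at K
      exact stepC' F' K hx hb hq hpq qx (by rw [LinearMap.add_apply, px, qx, add_zero])
    · have e1 : g = p + (p + g) := by rw [aab]
      rw [e1] at K
      exact stepC' F.tr K hx hb hp hpq px (by rw [LinearMap.add_apply, px, qx, add_zero])
    · exact stepC' F K hx hb hp hq px qx
  -- all exchanged kinds vanish at `e`
  have h2 : ∀ g, Dd D y b g → g e = 0 := by
    intro g hg
    rcases zm (g e) with h | h
    · exact h
    · obtain ⟨x, z, h3, h4⟩ := hg.hits h
      exact absurd h4 (h1 x z h3)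
  obtain ⟨v, z, hv, K, h3, h4⟩ := id hp
  have hve : ¬ C D y (v + e) := fun h => h1 v z h h3
  have pk : p (e + v) = 0 := by rw [map_add, pe, K.self, add_zero]
  obtain ⟨g, g1, g2, g3⟩ := stepA X.he X.hK hv K h3 h4 pk (by rwa [s2])
  have ge := h2 g g3
  have gv : g v = 0 := by
    rw [map_add, ge, zero_add] at g2
    exact g2
  exact g1 (F.uniq2 (fun v h => g3.vy h) F.vp g3.ne hp.ne he hv (by rwa [add_comm]) ge gv pe
    K.self)

theorem nl' (X : Wd D y) {p q : V →ₗ[ZMod 2] ZMod 2} (pq : p ≠ q) (hp : Dd D y b p)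
    (hq : Dd D y b q) : ¬ Dd D y b (p + q) := by
  obtain ⟨p0, q0, r0, F0⟩ := X.fr
  obtain ⟨r, F⟩ := F0.ext2 (fun v h => hp.vy h) (fun v h => hq.vy h) hp.ne hq.ne pq
  exact fun h => nl X F hp hq h

theorem one_of {a : ZMod 2} (h : a ≠ 0) : a = 1 := zm_ne_zero h

/-- every line through an exchanged kind contains a second one -/
theorem ex (X : Wd D y) {f : V →ₗ[ZMod 2] ZMod 2} (hf : Dd D y b f) {a : V}
    (fa : f a = 0) : ∃ g, Dd D y b g ∧ g ≠ f ∧ g a = 0 := by
  obtain ⟨x, z, hx, K, h1, h2⟩ := id hf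
  by_cases hax : C D y (a + x)
  swap
  · obtain ⟨g, g1, g2, g3⟩ := stepA X.he X.hK hx K h1 h2 fa hax
    exact ⟨g, g3, g1, g2⟩
  by_contra hno
  push Not at hno
  have no : ∀ g, Dd D y b g → g ≠ f → g x = 1 := fun g hg gf => by
    rw [← eqp hax fun v h => hg.vy h]
    exact one_of (hno g hg gf)
  -- a point `a1` of `ker f`
  obtain ⟨a1, fa1, c1, c2⟩ : ∃ a1, f a1 = 0 ∧ ¬ C D y a1 ∧ ¬ C D y (a1 + x) := by
    obtain ⟨p0, q0, r0, F0⟩ := X.fr
    obtain ⟨g, g1, g2⟩ := exists_cut (K := ETAL.ann D y) (l := x) hx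
    have fg : f ≠ g := by
      rintro rfl
      rw [K.self] at g1
      exact absurd g1 (by decide)
    obtain ⟨r, F⟩ := F0.ext2 (fun v h => K.vy h) g2 K.ne
      (by rintro rfl; rw [LinearMap.zero_apply] at g1; exact absurd g1 (by decide)) fg
    rcases zm (r x) with hr | hr
    · obtain ⟨a1, e1, e2, e3⟩ := F.sur 0 0 1
      refine ⟨a1, e1, fun h => ?_, fun h => ?_⟩
      · rw [F.vr _ h] at e3; exact absurd e3 (by decide)
      · have := F.vq _ h
        rw [map_add, e2, g1] at this
        exact absurd this (by decide)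
    · obtain ⟨a1, e1, e2, e3⟩ := F.sur 0 0 1
      refine ⟨a1, e1, fun h => ?_, fun h => ?_⟩
      · rw [F.vr _ h] at e3; exact absurd e3 (by decide)
      · have := F.vq _ h
        rw [map_add, e2, g1] at this
        exact absurd this (by decide)
  obtain ⟨g1, g1f, g1a, D1⟩ := stepA X.he X.hK hx K h1 h2 fa1 c2
  obtain ⟨g2, g2f, g2a, D2⟩ := stepA X.he X.hK hx K h1 h2 (k := a1 + x)
    (by rw [map_add, fa1, K.self, add_zero]) (by rwa [s2])
  have g1x := no g1 D1 g1f
  have g2x := no g2 D2 g2f
  have g2a1 : g2 a1 = 1 := by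
    rw [map_add, g2x] at g2a
    rcases zm (g2 a1) with h | h
    · rw [h] at g2a; exact absurd g2a (by decide)
    · exact h
  have g12 : g1 ≠ g2 := by
    rintro rfl
    rw [g1a] at g2a1
    exact absurd g2a1 (by decide)
  obtain ⟨p0, q0, r0, F0⟩ := X.fr
  have F : Fr D y f g1 g2 := F0.mk' (fun v h => K.vy h) (fun v h => D1.vy h)
    (fun v h => D2.vy h) K.ne D1.ne D2.ne (Ne.symm g1f) (Ne.symm g2f) g12 (by
      intro h
      have := congrArg (fun k => k a1) h
      simp only [LinearMap.add_apply, fa1, g1a, g2a1] at this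
      exact absurd this (by decide))
  obtain ⟨e, fe, g1e, g2e⟩ := F.sur 1 0 0
  have hee : ¬ C D y e := fun h => by
    rw [F.vp e h] at fe; exact absurd fe (by decide)
  obtain ⟨x', z', c3, c4⟩ := hf.hits fe
  have hx' := nC c3 hee
  obtain ⟨κ, K'⟩ := X.hK x' hx'
  have g1x' : g1 x' = 0 := by rw [eqp c3 F.vq, g1e]
  have g2x' : g2 x' = 0 := by rw [eqp c3 F.vr, g2e]
  have κe : κ e = 0 := by rw [← eqp c3 fun v h => K'.vy h, K'.self]
  have F2 : Fr D y g1 g2 f := F.rot
  have F3 : Fr D y g2 f g1 := F2.rot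
  -- the last kind `f + g1 + g2`
  have last : ∀ g', Dd D y b g' → g' x = 0 → g' = f := by
    intro g' hg' h
    by_contra hne
    rw [no g' hg' hne] at h
    exact absurd h (by decide)
  rcases F2.two (fun v h => K'.vy h) g1e g2e hee κe with rfl | rfl | rfl | rfl
  · exact K'.ne rfl
  · -- kind `g1`
    obtain ⟨v1, z1, -, K1, k1, k2⟩ := id D1
    have hz' : κ z' = 1 := by rw [K'.dich K1 (c4.trans k1.symm), k2]
    obtain ⟨g', n1, n2, D'⟩ := stepA X.he X.hK hx' K' c4 hz' (k := e + a1)
      (by rw [map_add, g1e, g1a, add_zero]) (by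
        intro h
        apply c1
        have h3 := h.add c3
        have : e + a1 + x' + (x' + e) = a1 := by
          have : e + a1 + x' + (x' + e) = a1 + (e + e) + (x' + x') := by abel
          rw [this, ZModModule.add_self, ZModModule.add_self]; simp
        rwa [this] at h3)
    have hk : ¬ C D y (e + a1) := fun h => by
      have := F.vp _ h
      rw [map_add, fe, fa1] at this
      exact absurd this (by decide)
    -- `g'` vanishes at `e + a1`, as `g1` and `f + g2`
    have F4 : Fr D y κ (g2 + f) g2 := F3.tr.swp.rot.rot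
    have h5 : (g2 + f) (e + a1) = 0 := by
      rw [LinearMap.add_apply, map_add, map_add, g2e, g2a1, fe, fa1]; decide
    rcases F4.two (fun v h => D'.vy h) (by rw [map_add, g1e, g1a, add_zero]) h5 hk n2 with
      h | h | h | h
    · exact D'.ne h
    · exact n1 h
    · rw [h] at D'
      exact nl' X g2f D2 hf D'
    · have h6 := last g' D' (by
        rw [h, LinearMap.add_apply, LinearMap.add_apply, g1x, g2x, K.self]; decide)
      rw [h] at h6
      have h7 := congrArg (fun k => k a1) h6
      simp only [LinearMap.add_apply, fa1, g1a, g2a1] at h7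
      exact absurd h7 (by decide)
  · -- kind `g2`
    obtain ⟨v1, z1, -, K1, k1, k2⟩ := id D2
    have hz' : κ z' = 1 := by rw [K'.dich K1 (c4.trans k1.symm), k2]
    obtain ⟨g', n1, n2, D'⟩ := stepA X.he X.hK hx' K' c4 hz' (k := e + (a1 + x))
      (by rw [map_add, g2e, g2a, add_zero]) (by
        intro h
        apply c2
        have h3 := h.add c3
        have : e + (a1 + x) + x' + (x' + e) = a1 + x := by
          have : e + (a1 + x) + x' + (x' + e) = a1 + x + (e + e) + (x' + x') := by abel
          rw [this, ZModModule.add_self, ZModModule.add_self]; simp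
        rwa [this] at h3)
    have fa2 : f (a1 + x) = 0 := by rw [map_add, fa1, K.self, add_zero]
    have g1a2 : g1 (a1 + x) = 1 := by rw [map_add, g1a, g1x, zero_add]
    have hk : ¬ C D y (e + (a1 + x)) := fun h => by
      have := F.vp _ h
      rw [map_add, fe, fa2] at this
      exact absurd this (by decide)
    have F4 : Fr D y κ (g1 + f) g1 := F.swp.tr.swp.rot.rot
    have h5 : (g1 + f) (e + (a1 + x)) = 0 := by
      rw [LinearMap.add_apply, map_add g1, map_add f, g1e, g1a2, fe, fa2]; decide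
    rcases F4.two (fun v h => D'.vy h) (by rw [map_add, g2e, g2a, add_zero]) h5 hk n2 with
      h | h | h | h
    · exact D'.ne h
    · exact n1 h
    · rw [h] at D'
      exact nl' X g1f D1 hf D'
    · have h6 := last g' D' (by
        rw [h, LinearMap.add_apply, LinearMap.add_apply, g1x, g2x, K.self]; decide)
      rw [h] at h6
      have h7 := congrArg (fun k => k a1) h6
      simp only [LinearMap.add_apply, fa1, g1a, g2a1] at h7
      exact absurd h7 (by decide)
  · -- kind `g1 + g2`
    exact stepC' F2 K' hx' c4 D1 D2 g1x' g2x'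

end

end Pool.Agent.ETH8
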