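import Pool.Agent.ETH8.Cls

/-!
# First moments (helper69, 69P Steps 4, 6)
-/

set_option autoImplicit false
set_option linter.unusedSectionVars false
set_option linter.unusedSimpArgs false

namespace Pool.Agent.ETH8

open Pool.Agent.Helper58.PLine (QData zm zm_ne_zero)
open Pool.Agent.ETCP
open Pool.Agent.ETAL
open ETC (ind ind_true ind_false ind_and ind_congr ind_nonneg ind_le sum_ind_shift)

variable {V Q : Type} [AddCommGroup V] [Module (ZMod 2) V] {D : QData V Q}

namespace Fr

variable {y : V} {p q r : V →ₗ[ZMod 2] ZMod 2}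

theorem p0 (F : Fr D y p q r) : p ≠ 0 := by
  rintro rfl
  obtain ⟨v, h, -, -⟩ := F.sur 1 0 0
  rw [LinearMap.zero_apply] at h
  exact absurd h (by decide)

theorem pq (F : Fr D y p q r) : p ≠ q := by
  rintro rfl
  obtain ⟨v, h1, h2, -⟩ := F.sur 1 0 0
  rw [h1] at h2
  exact absurd h2 (by decide)

theorem ppq (F : Fr D y p q r) : p ≠ p + q := fun h => F.swp.p0 (by
  have := congrArg (fun k => p + k) h
  simp only [aa, aab] at this
  exact this.symm)

theorem qpq (F : Fr D y p q r) : q ≠ p + q := fun h => F.p0 (by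
  have := congrArg (fun k => q + k) h
  rw [add_comm p q] at this
  simp only [aa, aab] at this
  exact this.symm)

end Fr

section

variable [Fintype V] {y : V} {b : Q}

/-- the number of elements of `V_x ∩ V_y` -/
noncomputable def kk (D : QData V Q) (y x : V) : ℤ := ∑ u : V, ind (C D y u ∧ C D x u)

/-- mass of the elements of `Y_a` of kind `f` with a partner `z` for `b` with `f z = i` -/
noncomputable def ms (D : QData V Q) (y : V) (b : Q) (a : V) (f : V →ₗ[ZMod 2] ZMod 2)
    (i : ZMod 2) : ℤ :=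
  ∑ x : V, ind (C D y (x + a) ∧ Kd D y x f ∧ ∃ z, D.q x z = b ∧ f z = i) * kk D y x

/-- the first moment -/
noncomputable def mo (D : QData V Q) (y : V) (b : Q) (a a' : V) : ℤ :=
  ∑ x : V, ∑ z : V, ind (C D y (x + a) ∧ C D y (z + a') ∧ D.q x z = b)

theorem mo_symm (a a' : V) : mo D y b a a' = mo D y b a' a := by
  unfold mo
  rw [Finset.sum_comm]
  refine Finset.sum_congr rfl fun x _ => Finset.sum_congr rfl fun z _ => ind_congr ?_
  rw [q_symm z x]
  tauto

theorem inner {x : V} {f : V →ₗ[ZMod 2] ZMod 2} (K : Kd D y x f) (a' : V) :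
    ∑ z : V, ind (C D y (z + a') ∧ D.q x z = b)
      = ind (∃ z, D.q x z = b ∧ f z = f a') * kk D y x := by
  by_cases h : ∃ z, D.q x z = b ∧ f z = f a'
  · rw [ind_true h, one_mul]
    obtain ⟨z0, h1, h2⟩ := h
    obtain ⟨z', h3, h4⟩ := K.hit h2
    unfold kk
    apply sum_ind_shift _ _ z'
    intro u
    constructor
    · rintro ⟨h5, h6⟩
      constructor
      · have := h5.add h3
        have e : u + z' + a' + (z' + a') = u := by
          have : u + z' + a' + (z' + a') = u + (z' + z') + (a' + a') := by abel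
          rw [this, ZModModule.add_self, ZModModule.add_self]; simp
        rwa [e] at this
      · have h7 : D.q x (u + z') = D.q x z' := by rw [h6, h4, h1]
        have := q_eq_iff.1 h7
        rwa [s2] at this
    · rintro ⟨h5, h6⟩
      constructor
      · rw [add_assoc]; exact h5.add h3
      · rw [← h1, ← h4]
        apply mv
        rwa [s2]
  · rw [ind_false h, zero_mul]
    apply Finset.sum_eq_zero
    intro z _
    apply ind_false
    rintro ⟨h1, h2⟩
    exact h ⟨z, h2, eqp h1 fun v h => K.vy h⟩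

/-- the first moment in terms of the three kinds over `a` -/
theorem mo_eq {p q r : V →ₗ[ZMod 2] ZMod 2} (X : Wd D y) (F : Fr D y p q r) {a : V}
    (ha : ¬ C D y a) (pa : p a = 0) (qa : q a = 0) (a' : V) :
    mo D y b a a' = ms D y b a p (p a') + ms D y b a q (q a')
      + ms D y b a (p + q) ((p + q) a') := by
  unfold mo ms
  rw [← Finset.sum_add_distrib, ← Finset.sum_add_distrib]
  refine Finset.sum_congr rfl fun x _ => ?_
  by_cases hx : C D y (x + a)
  swap
  · rw [ind_false (fun h => hx h.1), ind_false (fun h => hx h.1), ind_false (fun h => hx h.1)]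
    rw [Finset.sum_eq_zero fun z _ => ind_false fun h => hx h.1]
    ring
  have hx' := nC hx ha
  obtain ⟨g, K⟩ := X.hK x hx'
  have ga : g a = 0 := by rw [← eqp hx fun v h => K.vy h, K.self]
  have e1 : ∑ z : V, ind (C D y (x + a) ∧ C D y (z + a') ∧ D.q x z = b)
      = ind (∃ z, D.q x z = b ∧ g z = g a') * kk D y x := by
    rw [← inner K a']
    exact Finset.sum_congr rfl fun z _ => ind_congr ⟨fun h => h.2, fun h => ⟨hx, h⟩⟩
  rw [e1]
  have off : ∀ (f : V →ₗ[ZMod 2] ZMod 2) (i : ZMod 2), g ≠ f →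
      ind (C D y (x + a) ∧ Kd D y x f ∧ ∃ z, D.q x z = b ∧ f z = i) = 0 :=
    fun f i hne => ind_false fun h => hne (K.ext h.2.1)
  have on : ind (C D y (x + a) ∧ Kd D y x g ∧ ∃ z, D.q x z = b ∧ g z = g a')
      = ind (∃ z, D.q x z = b ∧ g z = g a') :=
    ind_congr ⟨fun h => h.2.2, fun h => ⟨hx, K, h⟩⟩
  rcases F.two (fun v h => K.vy h) pa qa ha ga with rfl | rfl | rfl | rfl
  · exact absurd rfl K.ne
  · rw [on, off q _ F.pq, off (g + q) _ F.ppq]; ring
  · rw [on, off p _ (Ne.symm F.pq), off (p + g) _ F.qpq]; ring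
  · rw [on, off p _ (Ne.symm F.ppq), off q _ (Ne.symm F.qpq)]; ring

/-- exchanged kinds have no mass of type `0` -/
theorem ms_zero {f : V →ₗ[ZMod 2] ZMod 2} (h : Dd D y b f) (a : V) : ms D y b a f 0 = 0 := by
  unfold ms
  apply Finset.sum_eq_zero
  intro x _
  rw [ind_false, zero_mul]
  rintro ⟨-, K, z, h1, h2⟩
  obtain ⟨v, z', -, K', h3, h4⟩ := h
  have := K.dich K' (h1.trans h3.symm)
  rw [h2, h4] at this
  exact absurd this (by decide)

/-- other kinds have no mass of type `1` -/
theorem ms_one {f : V →ₗ[ZMod 2] ZMod 2} (h : ¬ Dd D y b f) {a : V} (ha : ¬ C D y a) :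
    ms D y b a f 1 = 0 := by
  unfold ms
  apply Finset.sum_eq_zero
  intro x _
  rw [ind_false, zero_mul]
  rintro ⟨h0, K, z, h1, h2⟩
  exact h ⟨x, z, nC h0 ha, K, h1, h2⟩

/-- (C3) for masses -/
theorem ms_c3 {p q r : V →ₗ[ZMod 2] ZMod 2} (F : Fr D y p q r) (hp : Dd D y b p)
    (hq : Dd D y b q) {a : V} (ha : ¬ C D y a) (pa : p a = 0) (qa : q a = 0) (i : ZMod 2) :
    ms D y b a (p + q) i = 0 := by
  unfold ms
  apply Finset.sum_eq_zero
  intro x _
  rw [ind_false, zero_mul]
  rintro ⟨h0, K, z, h1, -⟩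
  exact stepC' F K (nC h0 ha) h1 hp hq (by rw [eqp h0 F.vp, pa]) (by rw [eqp h0 F.vq, qa])

/-- **the masses of an exchanged kind are all equal** -/
theorem ms_const (X : Wd D y) {f : V →ₗ[ZMod 2] ZMod 2} {a a' : V} (ha : ¬ C D y a)
    (ha' : ¬ C D y a') (fa : f a = 0) (fa' : f a' = 0) :
    ms D y b a f 1 = ms D y b a' f 1 := by
  by_cases hf : Dd D y b f
  swap
  · rw [ms_one hf ha, ms_one hf ha']
  by_cases haa : C D y (a + a')
  · unfold ms
    refine Finset.sum_congr rfl fun x _ => ?_
    congr 1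
    apply ind_congr
    have : C D y (x + a) ↔ C D y (x + a') := by
      constructor
      · intro h
        have h1 := h.add haa
        have e : x + a + (a + a') = x + a' := by
          have : x + a + (a + a') = x + a' + (a + a) := by abel
          rw [this, ZModModule.add_self, add_zero]
        rwa [e] at h1
      · intro h
        have h1 := h.add haa
        have e : x + a' + (a + a') = x + a := by
          have : x + a' + (a + a') = x + a + (a' + a') := by abel
          rw [this, ZModModule.add_self, add_zero]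
        rwa [e] at h1
    rw [this]
  obtain ⟨g, Dg, gf, ga⟩ := ex X hf fa
  obtain ⟨g', Dg', gf', ga'⟩ := ex X hf fa'
  obtain ⟨p0, q0, r0, F0⟩ := X.fr
  have ga1 : g a' = 1 := by
    rcases zm (g a') with h | h
    · exact absurd (F0.uniq2 (fun v h => Dg.vy h) (fun v h => hf.vy h) Dg.ne hf.ne ha ha' haa
        ga h fa fa') gf
    · exact h
  have ga1' : g' a = 1 := by
    rcases zm (g' a) with h | h
    · exact absurd (F0.uniq2 (fun v h => Dg'.vy h) (fun v h => hf.vy h) Dg'.ne hf.ne ha ha' haa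
        h ga' fa fa') gf'
    · exact h
  have gg : g ≠ g' := by
    rintro rfl
    rw [ga'] at ga1
    exact absurd ga1 (by decide)
  have F : Fr D y f g g' := F0.mk' (fun v h => hf.vy h) (fun v h => Dg.vy h)
    (fun v h => Dg'.vy h) hf.ne Dg.ne Dg'.ne (Ne.symm gf) (Ne.symm gf') gg (by
      intro h
      have := congrArg (fun k => k a') h
      simp only [LinearMap.add_apply, fa', ga', ga1] at this
      exact absurd this (by decide))
  have n1 : ¬ Dd D y b (f + g) := nl' X (Ne.symm gf) hf Dg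
  have n2 : ¬ Dd D y b (f + g') := nl' X (Ne.symm gf') hf Dg'
  have n3 : ¬ Dd D y b (g' + g) := nl' X (Ne.symm gg) Dg' Dg
  -- the fourth exchanged kind
  set h : V →ₗ[ZMod 2] ZMod 2 := f + (g' + g) with hh
  have Dh : Dd D y b h := by
    obtain ⟨k, Dk, kf, ku⟩ := ex X hf (a := a + a') (by rw [map_add, fa, fa', add_zero])
    have F5 : Fr D y f (g' + g) g' := F.rot.swp.tr.rot.swp
    rcases F5.two (fun v h => Dk.vy h) (by rw [map_add, fa, fa', add_zero])
      (by rw [LinearMap.add_apply, map_add, map_add, ga, ga1, ga', ga1']; decide) haa ku with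
      h1 | h1 | h1 | h1
    · exact absurd h1 Dk.ne
    · exact absurd h1 kf
    · rw [h1] at Dk; exact absurd Dk n3
    · rwa [h1] at Dk
  obtain ⟨c, fc, gc, gc'⟩ := F.sur 1 1 1
  obtain ⟨u, fu, gu, gu'⟩ := F.sur 1 1 0
  obtain ⟨v, fv, gv, gv'⟩ := F.sur 1 0 1
  have nof : ∀ {t : V}, f t = 1 → ¬ C D y t := fun {t} ht h => by
    rw [F.vp t h] at ht; exact absurd ht (by decide)
  have hc := nof fc
  have hu := nof fu
  have hv := nof fv
  -- frames
  have s23 : ∀ {p q r : V →ₗ[ZMod 2] ZMod 2}, Fr D y p q r → Fr D y p r q :=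
    fun F => F.rot.rot.swp
  have Fa' : Fr D y f g' g := s23 F
  have Fu : Fr D y g' (f + g) f := s23 (s23 F.tr).swp
  have Fv : Fr D y g (f + g') f := s23 (s23 Fa'.tr).swp
  have Fc : Fr D y (f + g) (f + g') f := (s23 F.tr).tr.rot.swp
  have hu1 : g' + (f + g) = h := by rw [hh]; abel
  have hv1 : g + (f + g') = h := by rw [hh]; abel
  have Fu2 : Fr D y g' h f := by rw [← hu1]; exact Fu.tr
  have Fv2 : Fr D y g h f := by rw [← hv1]; exact Fv.tr
  have q1 := mo_eq (b := b) X F ha fa ga
  have q2 := mo_eq (b := b) X Fa' ha' fa' ga'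
  have q3 := mo_eq (b := b) X Fu hu gu' (by rw [LinearMap.add_apply, fu, gu]; decide)
  have q4 := mo_eq (b := b) X Fv hv gv (by rw [LinearMap.add_apply, fv, gv']; decide)
  have q5 := mo_eq (b := b) X Fc hc (by rw [LinearMap.add_apply, fc, gc]; decide)
    (by rw [LinearMap.add_apply, fc, gc']; decide)
  rw [hu1] at q3
  rw [hv1] at q4
  have z11 : (1 : ZMod 2) + 1 = 0 := by decide
  -- values of the composite functionals
  have fga : (f + g) a = 0 := by rw [LinearMap.add_apply, fa, ga, add_zero]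
  have fga' : (f + g) a' = 1 := by rw [LinearMap.add_apply, fa', ga1, zero_add]
  have fgc : (f + g) c = 0 := by rw [LinearMap.add_apply, fc, gc, z11]
  have fgu : (f + g) u = 0 := by rw [LinearMap.add_apply, fu, gu, z11]
  have fgv : (f + g) v = 1 := by rw [LinearMap.add_apply, fv, gv, add_zero]
  have fha : (f + g') a = 1 := by rw [LinearMap.add_apply, fa, ga1', zero_add]
  have fha' : (f + g') a' = 0 := by rw [LinearMap.add_apply, fa', ga', add_zero]
  have fhc : (f + g') c = 0 := by rw [LinearMap.add_apply, fc, gc', z11]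
  have fhu : (f + g') u = 1 := by rw [LinearMap.add_apply, fu, gu', add_zero]
  have fhv : (f + g') v = 0 := by rw [LinearMap.add_apply, fv, gv', z11]
  have hc1 : h c = 1 := by
    rw [hh, LinearMap.add_apply, LinearMap.add_apply, fc, gc', gc, z11, add_zero]
  have ha1 : h a = 1 := by
    rw [hh, LinearMap.add_apply, LinearMap.add_apply, fa, ga1', ga, add_zero, zero_add]
  have ha1' : h a' = 1 := by
    rw [hh, LinearMap.add_apply, LinearMap.add_apply, fa', ga', ga1, zero_add, zero_add]
  have hv0 : h v = 0 := by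
    rw [hh, LinearMap.add_apply, LinearMap.add_apply, fv, gv', gv, add_zero, z11]
  have hu0 : h u = 0 := by
    rw [hh, LinearMap.add_apply, LinearMap.add_apply, fu, gu', gu, zero_add, z11]
  have A1 := q1 c
  have A2 := q1 v
  have A3 := q1 a'
  have B1 := q2 c
  have B2 := q2 u
  have B3 := q2 a
  have U1 := q3 c
  have U2 := q3 a'
  have U3 := q3 v
  have V1 := q4 c
  have V2 := q4 a
  have V3 := q4 u
  have C1 := q5 a
  have C2 := q5 u
  have C3 := q5 a'
  have C4 := q5 v
  rw [fc, gc, fgc] at A1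
  rw [fv, gv, fgv] at A2
  rw [fa', ga1, fga'] at A3
  rw [fc, gc', fhc] at B1
  rw [fu, gu', fhu] at B2
  rw [fa, ga1', fha] at B3
  rw [gc', fgc, hc1] at U1
  rw [ga', fga', ha1'] at U2
  rw [gv', fgv, hv0] at U3
  rw [gc, fhc, hc1] at V1
  rw [ga, fha, ha1] at V2
  rw [gu, fhu, hu0] at V3
  rw [LinearMap.add_apply (f + g), fga, fha, zero_add] at C1
  rw [LinearMap.add_apply (f + g), fgu, fhu, zero_add] at C2
  rw [LinearMap.add_apply (f + g), fga', fha', add_zero] at C3
  rw [LinearMap.add_apply (f + g), fgv, fhv, add_zero] at C4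
  have Z1 := ms_zero hf a
  have Z2 := ms_zero Dg a
  have Z3 := ms_zero hf a'
  have Z4 := ms_zero Dg' a'
  have Z5 := ms_zero Dg' u
  have Z6 := ms_zero Dh u
  have Z7 := ms_zero Dg v
  have Z8 := ms_zero Dh v
  have O1 := ms_one n1 ha
  have O2 := ms_one n2 ha'
  have O3 := ms_one n1 hu
  have O4 := ms_one n2 hv
  have T1 := ms_c3 F hf Dg ha fa ga 0
  have T2 := ms_c3 Fa' hf Dg' ha' fa' ga' 0
  have hu2 : g' + h = f + g := by rw [← hu1, aab]
  have hv2 : g + h = f + g' := by rw [← hv1, aab]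
  have T3 : ms D y b u (f + g) 0 = 0 := by
    rw [← hu2]; exact ms_c3 Fu2 Dg' Dh hu gu' hu0 0
  have T4 : ms D y b v (f + g') 0 = 0 := by
    rw [← hv2]; exact ms_c3 Fv2 Dg Dh hv gv hv0 0
  have S1 := mo_symm (D := D) (y := y) (b := b) a c
  have S2 := mo_symm (D := D) (y := y) (b := b) a' c
  have S3 := mo_symm (D := D) (y := y) (b := b) u c
  have S4 := mo_symm (D := D) (y := y) (b := b) v c
  have S5 := mo_symm (D := D) (y := y) (b := b) a v
  have S6 := mo_symm (D := D) (y := y) (b := b) a a'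
  have S7 := mo_symm (D := D) (y := y) (b := b) a' u
  have S8 := mo_symm (D := D) (y := y) (b := b) u v
  linarith

end

end Pool.Agent.ETH8
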