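import Pool.Agent.ETH8.Cnt

/-!
# `|Q_y| = 8` and purity at `y` are impossible (helper69, note ETC-69P)
-/

set_option autoImplicit false
set_option linter.unusedSectionVars false
set_option linter.unusedSimpArgs false

namespace Pool.Agent.ETH8

open Pool.Agent.Helper58.PLine (QData zm zm_ne_zero)
open Pool.Agent.ETCP
open Pool.Agent.ETAL
open ETC (ind ind_true ind_false ind_and ind_congr ind_nonneg ind_le sum_ind_shift)

variable {V Q : Type} [AddCommGroup V] [Module (ZMod 2) V] {D : QData V Q}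

section

variable [Fintype V] {y : V}

/-- the number of elements of `Y_a` of kind `f` -/
noncomputable def nu (D : QData V Q) (y a : V) (f : V →ₗ[ZMod 2] ZMod 2) : ℤ :=
  ∑ x : V, ind (C D y (x + a) ∧ Kd D y x f)

/-- `|V_y|` -/
noncomputable def nn (D : QData V Q) (y : V) : ℤ := ∑ x : V, ind (C D y x)

theorem nn_pos : 0 < nn D y := by
  unfold nn
  apply Finset.sum_pos' (fun v _ => ind_nonneg _)
  exact ⟨0, Finset.mem_univ _, by rw [ind_true (C.zero y)]; norm_num⟩

theorem nn_shift (a : V) : ∑ x : V, ind (C D y (x + a)) = nn D y :=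
  sum_ind_shift _ _ a fun v => by rw [s2]

open Classical in
/-- all symbols -/
noncomputable def syms (D : QData V Q) : Finset Q :=
  Finset.univ.image fun t : V × V => D.q t.1 t.2

theorem mem_syms (x z : V) : D.q x z ∈ syms D := by
  classical
  unfold syms
  exact Finset.mem_image.2 ⟨(x, z), Finset.mem_univ _, rfl⟩

/-- STEP 6: sum over all symbols -/
theorem sum_ms {f : V →ₗ[ZMod 2] ZMod 2} (f0 : f ≠ 0) (a : V) :
    ∑ b ∈ syms D, ms D y b a f 1 = nu D y a f * nn D y := by
  obtain ⟨a1, h1⟩ : ∃ a1, f a1 = 1 := by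
    by_contra hcon
    push Not at hcon
    apply f0
    ext v
    rcases zm (f v) with h | h
    · rw [h, LinearMap.zero_apply]
    · exact absurd h (hcon v)
  unfold ms nu
  rw [Finset.sum_comm, Finset.sum_mul]
  refine Finset.sum_congr rfl fun x _ => ?_
  by_cases hx : C D y (x + a) ∧ Kd D y x f
  swap
  · rw [ind_false hx, zero_mul]
    apply Finset.sum_eq_zero
    intro b _
    rw [ind_false (fun h => hx ⟨h.1, h.2.1⟩), zero_mul]
  rw [ind_true hx, one_mul]
  have K := hx.2
  have e1 : ∀ b ∈ syms D,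
      ind (C D y (x + a) ∧ Kd D y x f ∧ ∃ z, D.q x z = b ∧ f z = 1) * kk D y x
        = ∑ z : V, ind (C D y (z + a1) ∧ D.q x z = b) := by
    intro b _
    rw [inner K a1, h1]
    congr 1
    exact ind_congr ⟨fun h => h.2.2, fun h => ⟨hx.1, K, h⟩⟩
  rw [Finset.sum_congr rfl e1, Finset.sum_comm, ← nn_shift a1]
  refine Finset.sum_congr rfl fun z _ => ?_
  rw [Finset.sum_eq_single (D.q x z)]
  · exact ind_congr ⟨fun h => h.1, fun h => ⟨h, rfl⟩⟩
  · intro b _ hb
    exact ind_false fun h => hb h.2.symm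
  · intro h
    exact absurd (mem_syms x z) h

/-- the numbers of elements of kind `f` do not depend on the value -/
theorem nu_const (X : Wd D y) {f : V →ₗ[ZMod 2] ZMod 2} (f0 : f ≠ 0) {a a' : V}
    (ha : ¬ C D y a) (ha' : ¬ C D y a') (fa : f a = 0) (fa' : f a' = 0) :
    nu D y a f = nu D y a' f := by
  have h : nu D y a f * nn D y = nu D y a' f * nn D y := by
    rw [← sum_ms f0, ← sum_ms f0]
    exact Finset.sum_congr rfl fun b _ => ms_const X ha ha' fa fa'
  exact mul_right_cancel₀ (ne_of_gt nn_pos) h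

/-- the three kinds over `a` exhaust `Y_a` -/
theorem nu_sum {p q r : V →ₗ[ZMod 2] ZMod 2} (X : Wd D y) (F : Fr D y p q r) {a : V}
    (ha : ¬ C D y a) (pa : p a = 0) (qa : q a = 0) :
    nu D y a p + nu D y a q + nu D y a (p + q) = nn D y := by
  rw [← nn_shift a]
  unfold nu
  rw [← Finset.sum_add_distrib, ← Finset.sum_add_distrib]
  refine Finset.sum_congr rfl fun x _ => ?_
  by_cases hx : C D y (x + a)
  swap
  · rw [ind_false (fun h => hx h.1), ind_false (fun h => hx h.1), ind_false (fun h => hx h.1),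
      ind_false hx]
    ring
  have hx' := nC hx ha
  obtain ⟨g, K⟩ := X.hK x hx'
  have ga : g a = 0 := by rw [← eqp hx fun v h => K.vy h, K.self]
  have off : ∀ f : V →ₗ[ZMod 2] ZMod 2, g ≠ f → ind (C D y (x + a) ∧ Kd D y x f) = 0 :=
    fun f hne => ind_false fun h => hne (K.ext h.2)
  have on : ind (C D y (x + a) ∧ Kd D y x g) = 1 := ind_true ⟨hx, K⟩
  rw [ind_true hx]
  rcases F.two (fun v h => K.vy h) pa qa ha ga with rfl | rfl | rfl | rfl
  · exact absurd rfl K.ne
  · rw [on, off q F.pq, off (g + q) F.ppq]; ring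
  · rw [on, off p (Ne.symm F.pq), off (p + g) F.qpq]; ring
  · rw [on, off p (Ne.symm F.ppq), off q (Ne.symm F.qpq)]; ring

theorem nn_pow : ∃ k : ℕ, nn D y = 2 ^ k := by
  classical
  set S := AddSubgroup.toZModSubmodule 2 (ETAL.ann D y) with hS
  refine ⟨Module.finrank (ZMod 2) S, ?_⟩
  have h1 := Module.card_eq_pow_finrank (K := ZMod 2) (V := S)
  rw [ZMod.card] at h1
  have h2 : nn D y = (Fintype.card S : ℤ) := by
    unfold nn
    rw [Fintype.card_subtype]
    have : ∀ x : V, ind (C D y x) = if x ∈ S then 1 else 0 := by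
      intro x
      by_cases h : C D y x
      · rw [ind_true h, if_pos (by rw [hS]; exact h)]
      · rw [ind_false h, if_neg (by rw [hS]; exact h)]
    rw [Finset.sum_congr rfl fun x _ => this x, Finset.sum_boole]
  rw [h2, h1]
  push_cast
  rfl

/-- **THEOREM (69P)**: `|V / V_y| = 8` and all kinds hyperplanes are impossible. -/
theorem false_of_wd (X : Wd D y) : False := by
  obtain ⟨p, q, r, F⟩ := X.fr
  have s23 : ∀ {p q r : V →ₗ[ZMod 2] ZMod 2}, Fr D y p q r → Fr D y p r q :=
    fun F => F.rot.rot.swp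
  obtain ⟨e3, p3, q3, r3⟩ := F.sur 0 0 1
  obtain ⟨e2, p2, q2, r2⟩ := F.sur 0 1 0
  obtain ⟨e1, p1, q1, r1⟩ := F.sur 1 0 0
  obtain ⟨d1, pd1, qd1, rd1⟩ := F.sur 0 1 1
  obtain ⟨d2, pd2, qd2, rd2⟩ := F.sur 1 0 1
  obtain ⟨d3, pd3, qd3, rd3⟩ := F.sur 1 1 0
  obtain ⟨c, pc, qc, rc⟩ := F.sur 1 1 1
  have np : ∀ {t : V}, p t = 1 → ¬ C D y t := fun {t} ht h => by
    rw [F.vp t h] at ht; exact absurd ht (by decide)
  have nq : ∀ {t : V}, q t = 1 → ¬ C D y t := fun {t} ht h => by
    rw [F.vq t h] at ht; exact absurd ht (by decide)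
  have nr : ∀ {t : V}, r t = 1 → ¬ C D y t := fun {t} ht h => by
    rw [F.vr t h] at ht; exact absurd ht (by decide)
  have z11 : (1 : ZMod 2) + 1 = 0 := by decide
  have z00 : (0 : ZMod 2) + 0 = 0 := by decide
  -- frames
  have Fpr : Fr D y p r q := s23 F
  have Fqr : Fr D y q r p := F.rot
  have Fp : Fr D y p (q + r) q := s23 (s23 Fqr.tr).swp
  have Fq : Fr D y q (p + r) p := s23 (s23 Fpr.tr).swp
  have Frr : Fr D y r (p + q) p := s23 (s23 F.tr).swp
  have Fc : Fr D y (p + q) (p + r) p := (s23 F.tr).tr.rot.swp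
  have ad : ∀ (f g : V →ₗ[ZMod 2] ZMod 2) {t : V} {i j : ZMod 2}, f t = i → g t = j →
      i + j = 0 → (f + g) t = 0 := by
    intro f g t i j h1 h2 h3
    rw [LinearMap.add_apply, h1, h2, h3]
  have S1 := nu_sum X F (nr r3) p3 q3
  have S2 := nu_sum X Fpr (nq q2) p2 r2
  have S3 := nu_sum X Fqr (np p1) q1 r1
  have S4 := nu_sum X Fp (nq qd1) pd1 (ad q r qd1 rd1 z11)
  have S5 := nu_sum X Fq (np pd2) qd2 (ad p r pd2 rd2 z11)
  have S6 := nu_sum X Frr (np pd3) rd3 (ad p q pd3 qd3 z11)
  have S7 := nu_sum X Fc (np pc) (ad p q pc qc z11) (ad p r pc rc z11)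
  have h5 : q + (p + r) = p + (q + r) := by abel
  have h6 : r + (p + q) = p + (q + r) := by abel
  have h7 : p + q + (p + r) = q + r := by
    have : p + q + (p + r) = (p + p) + (q + r) := by abel
    rw [this, aa, zero_add]
  rw [h5] at S5
  rw [h6] at S6
  rw [h7] at S7
  have hh : p + (q + r) ≠ 0 := fun h => by
    have := congrArg (fun k => k c) h
    simp only [LinearMap.add_apply, pc, qc, rc, LinearMap.zero_apply] at this
    exact absurd this (by decide)
  have K1 := nu_const X F.p0 (nr r3) (nq q2) p3 p2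
  have K2 := nu_const X F.p0 (nr r3) (nq qd1) p3 pd1
  have K3 := nu_const X F.rot.p0 (nr r3) (np p1) q3 q1
  have K4 := nu_const X F.rot.p0 (nr r3) (np pd2) q3 qd2
  have K5 := nu_const X F.rot.rot.p0 (nq q2) (np p1) r2 r1
  have K6 := nu_const X F.rot.rot.p0 (nq q2) (np pd3) r2 rd3
  have K7 := nu_const X Fc.p0 (nr r3) (np pd3) (ad p q p3 q3 z00) (ad p q pd3 qd3 z11)
  have K8 := nu_const X Fc.p0 (nr r3) (np pc) (ad p q p3 q3 z00) (ad p q pc qc z11)
  have K9 := nu_const X Fc.rot.p0 (nq q2) (np pd2) (ad p r p2 r2 z00) (ad p r pd2 rd2 z11)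
  have K10 := nu_const X Fc.rot.p0 (nq q2) (np pc) (ad p r p2 r2 z00) (ad p r pc rc z11)
  have K11 := nu_const X Fp.rot.p0 (np p1) (nq qd1) (ad q r q1 r1 z00) (ad q r qd1 rd1 z11)
  have K12 := nu_const X Fp.rot.p0 (np p1) (np pc) (ad q r q1 r1 z00) (ad q r qc rc z11)
  have K13 := nu_const X hh (nq qd1) (np pd2) (ad p (q + r) pd1 (ad q r qd1 rd1 z11) z00)
    (ad p (q + r) pd2 (by rw [LinearMap.add_apply, qd2, rd2, zero_add]) z11)
  have K14 := nu_const X hh (nq qd1) (np pd3) (ad p (q + r) pd1 (ad q r qd1 rd1 z11) z00)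
    (ad p (q + r) pd3 (by rw [LinearMap.add_apply, qd3, rd3, add_zero]) z11)
  obtain ⟨k, hk⟩ := nn_pow (D := D) (y := y)
  have key : 3 * nu D y e3 p = nn D y := by linarith
  rw [hk] at key
  have h3 : (3 : ℤ) ∣ 2 ^ k := ⟨_, key.symm⟩
  have h4 : (3 : ℕ) ∣ 2 ^ k := by exact_mod_cast h3
  have h8 := Nat.Prime.dvd_of_dvd_pow Nat.prime_three h4
  exact absurd h8 (by decide)

end

/-- **THEOREM**: if `|V / V_y| = 8`, then purity at `y` is impossible. -/
theorem false_of_pur8 [Finite V] {y : V} (he : D.e = 0)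
    (k4 : ∀ z, z ≠ 0 → ETCD2.K4At D z) (hp : PurAt D y)
    (hfr : ∃ p q r, Fr D y p q r) : False := by
  have := Fintype.ofFinite V
  have hyy : C D y y := C.self he y
  obtain ⟨p, q, r, F⟩ := id hfr
  obtain ⟨x0, h0, -, -⟩ := F.sur 1 0 0
  have hx0 : ¬ C D y x0 := fun h => by
    rw [F.vp _ h] at h0; exact absurd h0 (by decide)
  by_cases hfull : ∃ v, ¬ C D y v ∧ BB D y v ⊤
  · -- all elements outside `V_y` are full
    obtain ⟨v0, hv0, B0⟩ := hfull
    have key : ∀ {t s : V} {K : AddSubgroup V}, BB D y t ⊤ → BB D y s K → t ∈ K → K = ⊤ :=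
      fun Bt Bs ht => xstar hyy Bs.1 Bs.2 Bt.1 Bt.2 ht le_top
    have all : ∀ v, ¬ C D y v → BB D y v ⊤ := by
      intro a ha
      obtain ⟨w, e1⟩ := B0.2.sub a (AddSubgroup.mem_top a)
      obtain ⟨t0, c1, c2, c3⟩ := lk e1
      have c4 : C D v0 t0 := by
        have : y + (v0 + y) = v0 := by rw [add_comm v0 y, s3]
        rwa [this] at c3
      have ht0 : ¬ C D y t0 := nC (by rwa [add_comm] at c1) ha
      obtain ⟨H, B⟩ := hp t0 ht0
      have hH : H = ⊤ := key B0 B (B.annV c4.symm)
      rw [hH] at B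
      obtain ⟨H', B'⟩ := hp a ha
      have h1 : t0 ∈ H' := by
        have h2 : t0 + a ∈ H' := B'.annY (by rwa [add_comm] at c1)
        exact memc (B'.selfV he) h2
      have h3 : H' = ⊤ := key B B' h1
      rwa [h3] at B'
    refine false_of_pur_px he k4 hx0 hp ?_
    intro v v' H H' hv hvv B B'
    have hv' : ¬ C D y v' := fun h => hv (by
      have : D.q y v = D.z := hvv.trans h
      exact this)
    have e1 : H = ⊤ := key (all v hv) B (B.selfV he)
    have e2 : H' = ⊤ := key (all v' hv') B' (B'.selfV he)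
    rw [e1, e2]
  · push Not at hfull
    refine false_of_wd (D := D) (y := y) ⟨he, ?_, hfr⟩
    intro x hx
    obtain ⟨H, B⟩ := hp x hx
    have hne : H ≠ ⊤ := by
      rintro rfl
      exact hfull x hx B
    -- an element of `H` outside `<x> + V_y`
    obtain ⟨h1, hh1, n1, n2⟩ : ∃ h1 ∈ H, ¬ C D y h1 ∧ ¬ C D y (h1 + x) := by
      have hx00 : y ≠ 0 := by
        rintro rfl
        exact hx (C.zero' x)
      obtain ⟨w, s, k1, k2, k3, k4'⟩ := k4 y hx00 x hx
      by_contra hcon
      push Not at hcon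
      have hw : ¬ C D y w := nC (by rwa [add_comm] at k1) hx
      obtain ⟨H', B'⟩ := hp w hw
      have hwH : w ∈ H := by
        have h2 : w + x ∈ H := B.annY (by rwa [add_comm] at k1)
        exact memc (B.selfV he) h2
      have hle : H ≤ H' := by
        intro h hh
        by_cases hc : C D y h
        · exact B'.annY hc
        · have h3 := hcon h hh hc
          -- `h ∈ x + V_y`, `x ∈ w + V_y`
          have h4 : C D y (h + w) := by
            have := h3.add k1
            have e : h + x + (x + w) = h + w := by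
              have : h + x + (x + w) = h + w + (x + x) := by abel
              rw [this, ZModModule.add_self, add_zero]
            rwa [e] at this
          exact memc (B'.selfV he) (B'.annY h4)
      have hHH : H = H' := xstar hyy B.1 B.2 B'.1 B'.2 hwH hle
      have hs : s ∈ H := by rw [hHH]; exact B'.annV k2
      exact k4' (hcon s hs k3)
    -- the functional
    obtain ⟨h, hh⟩ : ∃ h, h ∉ H := by
      by_contra hcon
      push Not at hcon
      exact hne (eq_top_iff.2 fun v _ => hcon v)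
    obtain ⟨f, f1, f0⟩ := exists_cut hh
    have fy : ∀ v, C D y v → f v = 0 := fun v hv => f0 v (B.annY hv)
    have key : ∀ v, f v = 0 ↔ v ∈ H := by
      intro v
      refine ⟨fun hv => ?_, fun hv => f0 v hv⟩
      by_contra hvH
      obtain ⟨g, g1, g0⟩ := exists_cut hvH
      have gy : ∀ v, C D y v → g v = 0 := fun v hv => g0 v (B.annY hv)
      have hfg : f = g := by
        refine F.uniq2 fy gy ?_ ?_ hx n1 (by rwa [add_comm]) (f0 x (B.selfV he)) (f0 h1 hh1)
          (g0 x (B.selfV he)) (g0 h1 hh1)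
        · rintro rfl
          rw [LinearMap.zero_apply] at f1; exact absurd f1 (by decide)
        · rintro rfl
          rw [LinearMap.zero_apply] at g1; exact absurd g1 (by decide)
      rw [← hfg, hv] at g1
      exact absurd g1 (by decide)
    refine ⟨f, ?_, ?_, ?_, ?_, ?_⟩
    · rintro rfl
      rw [LinearMap.zero_apply] at f1; exact absurd f1 (by decide)
    · exact fun v hv => B.1.sub v ((key v).1 hv)
    · exact fun v w e => (key v).2 (B.1.sup v w e)
    · exact fun v hv => B.2.sub v ((key v).1 hv)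
    · exact fun v w e => (key v).2 (B.2.sup v w e)

end Pool.Agent.ETH8
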