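import Pool.Agent.ETH8.Kd

/-!
# Coordinates on `V / V_y` of order 8 (helper69)
-/

set_option autoImplicit false
set_option linter.unusedSectionVars false
set_option linter.unusedSimpArgs false

namespace Pool.Agent.ETH8

open Pool.Agent.Helper58.PLine (QData zm zm_ne_zero)
open Pool.Agent.ETCP
open Pool.Agent.ETAL

variable {V Q : Type} [AddCommGroup V] [Module (ZMod 2) V] {D : QData V Q}

/-- three functionals which are coordinates on `V / V_y` -/
structure Fr (D : QData V Q) (y : V) (p q r : V →ₗ[ZMod 2] ZMod 2) : Prop where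
  vp : ∀ v, C D y v → p v = 0
  vq : ∀ v, C D y v → q v = 0
  vr : ∀ v, C D y v → r v = 0
  ker : ∀ v, p v = 0 → q v = 0 → r v = 0 → C D y v
  sur : ∀ a b c : ZMod 2, ∃ v, p v = a ∧ q v = b ∧ r v = c

namespace Fr

variable {y : V} {p q r : V →ₗ[ZMod 2] ZMod 2}

theorem rep (F : Fr D y p q r) {g : V →ₗ[ZMod 2] ZMod 2} (hg : ∀ v, C D y v → g v = 0) :
    ∃ a b c : ZMod 2, ∀ v, g v = a * p v + b * q v + c * r v := by
  obtain ⟨u1, p1, q1, r1⟩ := F.sur 1 0 0
  obtain ⟨u2, p2, q2, r2⟩ := F.sur 0 1 0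
  obtain ⟨u3, p3, q3, r3⟩ := F.sur 0 0 1
  refine ⟨g u1, g u2, g u3, fun v => ?_⟩
  have h := hg (v + (p v) • u1 + (q v) • u2 + (r v) • u3) (F.ker _ ?_ ?_ ?_)
  · simp only [map_add, map_smul, smul_eq_mul] at h
    have h2 : ∀ a b c d : ZMod 2, a + b + c + d = 0 → a = b + c + d := by decide
    rw [h2 _ _ _ _ h]
    ring
  · simp only [map_add, map_smul, smul_eq_mul, p1, p2, p3, mul_one, mul_zero, add_zero]
    exact CharTwo.add_self_eq_zero _
  · simp only [map_add, map_smul, smul_eq_mul, q1, q2, q3, mul_one, mul_zero, add_zero]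
    exact CharTwo.add_self_eq_zero _
  · simp only [map_add, map_smul, smul_eq_mul, r1, r2, r3, mul_one, mul_zero, add_zero]
    exact CharTwo.add_self_eq_zero _

/-- functionals vanishing at one point -/
theorem two (F : Fr D y p q r) {g : V →ₗ[ZMod 2] ZMod 2} (hg : ∀ v, C D y v → g v = 0) {e : V}
    (pe : p e = 0) (qe : q e = 0) (he : ¬ C D y e) (ge : g e = 0) :
    g = 0 ∨ g = p ∨ g = q ∨ g = p + q := by
  obtain ⟨a, b, c, h⟩ := F.rep hg
  have re : r e = 1 := by
    rcases zm (r e) with h | h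
    · exact absurd (F.ker e pe qe h) he
    · exact h
  have hc : c = 0 := by
    have := h e
    rw [ge, pe, qe, re, mul_zero, mul_zero, mul_one, zero_add, zero_add] at this
    exact this.symm
  subst hc
  rcases zm a with rfl | rfl <;> rcases zm b with rfl | rfl
  · left; ext v; rw [h v]; simp
  · right; right; left; ext v; rw [h v]; simp
  · right; left; ext v; rw [h v]; simp
  · right; right; right; ext v; rw [h v]; simp

theorem rot (F : Fr D y p q r) : Fr D y q r p :=
  ⟨F.vq, F.vr, F.vp, fun v h1 h2 h3 => F.ker v h3 h1 h2, fun a b c => by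
    obtain ⟨v, h1, h2, h3⟩ := F.sur c a b
    exact ⟨v, h2, h3, h1⟩⟩

theorem swp (F : Fr D y p q r) : Fr D y q p r :=
  ⟨F.vq, F.vp, F.vr, fun v h1 h2 h3 => F.ker v h2 h1 h3, fun a b c => by
    obtain ⟨v, h1, h2, h3⟩ := F.sur b a c
    exact ⟨v, h2, h1, h3⟩⟩

theorem z2 (a b : ZMod 2) : b + a + a = b := by revert a b; decide

/-- change `q` to `p + q` -/
theorem tr (F : Fr D y p q r) : Fr D y p (p + q) r where
  vp := F.vp
  vq := fun v h => by rw [LinearMap.add_apply, F.vp v h, F.vq v h, add_zero]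
  vr := F.vr
  ker := fun v h1 h2 h3 => F.ker v h1 (by rwa [LinearMap.add_apply, h1, zero_add] at h2) h3
  sur := fun a b c => by
    obtain ⟨v, h1, h2, h3⟩ := F.sur a (b + a) c
    refine ⟨v, h1, ?_, h3⟩
    rw [LinearMap.add_apply, h1, h2, add_comm]
    exact z2 a b

/-- independent functionals are jointly onto -/
theorem onto {f g h : V →ₗ[ZMod 2] ZMod 2} (f0 : f ≠ 0) (g0 : g ≠ 0) (h0 : h ≠ 0) (fg : f ≠ g)
    (fh : f ≠ h) (gh : g ≠ h) (fgh : f + g ≠ h) (a b c : ZMod 2) :
    ∃ v, f v = a ∧ g v = b ∧ h v = c := by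
  set φ : V →ₗ[ZMod 2] (Fin 3 → ZMod 2) := LinearMap.pi ![f, g, h] with hφ
  have hr : LinearMap.range φ = ⊤ := by
    by_contra hne
    obtain ⟨ψ, ψ0, hψ⟩ := Submodule.exists_le_ker_of_lt_top _ (lt_top_iff_ne_top.2 hne)
    have key : ∀ v, f v * ψ (Pi.single 0 1) + g v * ψ (Pi.single 1 1)
        + h v * ψ (Pi.single 2 1) = 0 := by
      intro v
      have h1 : ψ (φ v) = 0 := hψ ⟨v, rfl⟩
      rw [LinearMap.pi_apply_eq_sum_univ ψ (φ v), Fin.sum_univ_three] at h1
      have e0 : φ v 0 = f v := rfl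
      have e1 : φ v 1 = g v := rfl
      have e2 : φ v 2 = h v := rfl
      rw [e0, e1, e2] at h1
      have e3 : ∀ i : Fin 3, (fun j => if i = j then (1 : ZMod 2) else 0) = Pi.single i 1 := by
        intro i
        funext j
        by_cases hij : i = j
        · subst hij; simp
        · simp [hij, Pi.single_apply, Ne.symm hij]
      simp only [e3, smul_eq_mul] at h1
      exact h1
    have key2 : ∀ x, x ∉ LinearMap.ker ψ → ψ (Pi.single 0 1) = 0 → ψ (Pi.single 1 1) = 0 →
        ψ (Pi.single 2 1) = 0 → False := by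
      intro x hx h1 h2 h3
      apply hx
      rw [LinearMap.mem_ker, LinearMap.pi_apply_eq_sum_univ ψ x, Fin.sum_univ_three]
      have e3 : ∀ i : Fin 3, (fun j => if i = j then (1 : ZMod 2) else 0) = Pi.single i 1 := by
        intro i
        funext j
        by_cases hij : i = j
        · subst hij; simp
        · simp [hij, Pi.single_apply, Ne.symm hij]
      simp only [e3, h1, h2, h3, smul_zero, add_zero]
    obtain ⟨x, hx⟩ : ∃ x, x ∉ LinearMap.ker ψ := by
      by_contra hcon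
      push Not at hcon
      exact ψ0 (LinearMap.ext fun x => hcon x)
    have h2 := key2 x hx
    rcases zm (ψ (Pi.single 0 1)) with h3 | h3 <;> rcases zm (ψ (Pi.single 1 1)) with h4 | h4 <;>
      rcases zm (ψ (Pi.single 2 1)) with h5 | h5 <;>
      simp only [h3, h4, h5, mul_zero, mul_one, add_zero, zero_add] at key
    · exact h2 h3 h4 h5
    · exact h0 (LinearMap.ext fun v => key v)
    · exact g0 (LinearMap.ext fun v => key v)
    · exact gh (LinearMap.ext fun v => zadd (key v))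
    · exact f0 (LinearMap.ext fun v => key v)
    · exact fh (LinearMap.ext fun v => zadd (key v))
    · exact fg (LinearMap.ext fun v => zadd (key v))
    · exact fgh (LinearMap.ext fun v => zadd (key v))
  obtain ⟨v, hv⟩ := LinearMap.range_eq_top.1 hr ![a, b, c]
  exact ⟨v, congrFun hv 0, congrFun hv 1, congrFun hv 2⟩

/-- any three independent functionals vanishing on `V_y` are coordinates -/
theorem mk' (F : Fr D y p q r) {f g h : V →ₗ[ZMod 2] ZMod 2} (vf : ∀ v, C D y v → f v = 0)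
    (vg : ∀ v, C D y v → g v = 0) (vh : ∀ v, C D y v → h v = 0)
    (f0 : f ≠ 0) (g0 : g ≠ 0) (h0 : h ≠ 0) (fg : f ≠ g)
    (fh : f ≠ h) (gh : g ≠ h) (fgh : f + g ≠ h) : Fr D y f g h := by
  have sur := onto f0 g0 h0 fg fh gh fgh
  choose s hs using fun t : ZMod 2 × ZMod 2 × ZMod 2 => F.sur t.1 t.2.1 t.2.2
  set ψ : ZMod 2 × ZMod 2 × ZMod 2 → ZMod 2 × ZMod 2 × ZMod 2 :=
    fun t => (f (s t), g (s t), h (s t)) with hψ
  have close : ∀ v, C D y (v + s (p v, q v, r v)) := by
    intro v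
    obtain ⟨h1, h2, h3⟩ := hs (p v, q v, r v)
    apply F.ker
    · rw [map_add, h1]; exact CharTwo.add_self_eq_zero _
    · rw [map_add, h2]; exact CharTwo.add_self_eq_zero _
    · rw [map_add, h3]; exact CharTwo.add_self_eq_zero _
  have hval : ∀ v, ψ (p v, q v, r v) = (f v, g v, h v) := by
    intro v
    have h1 := vf _ (close v)
    have h2 := vg _ (close v)
    have h3 := vh _ (close v)
    rw [map_add] at h1 h2 h3
    rw [hψ]
    exact Prod.ext (zadd h1).symm (Prod.ext (zadd h2).symm (zadd h3).symm)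
  have hsur : Function.Surjective ψ := by
    rintro ⟨a, b, c⟩
    obtain ⟨v, h1, h2, h3⟩ := sur a b c
    exact ⟨(p v, q v, r v), by rw [hval, h1, h2, h3]⟩
  have hinj := Finite.injective_iff_surjective.2 hsur
  refine ⟨vf, vg, vh, fun v h1 h2 h3 => ?_, sur⟩
  have e1 : ψ (p v, q v, r v) = ψ (p 0, q 0, r 0) := by
    rw [hval, hval, h1, h2, h3, map_zero, map_zero, map_zero]
  have e2 := hinj e1
  rw [Prod.mk.injEq, Prod.mk.injEq, map_zero, map_zero, map_zero] at e2
  exact F.ker v e2.1 e2.2.1 e2.2.2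

/-- extending two functionals to coordinates -/
theorem ext2 (F : Fr D y p q r) {f g : V →ₗ[ZMod 2] ZMod 2} (vf : ∀ v, C D y v → f v = 0)
    (vg : ∀ v, C D y v → g v = 0) (f0 : f ≠ 0) (g0 : g ≠ 0) (fg : f ≠ g) :
    ∃ h, Fr D y f g h := by
  choose s hs using fun t : ZMod 2 × ZMod 2 × ZMod 2 => F.sur t.1 t.2.1 t.2.2
  obtain ⟨t, t', hne, e1⟩ := Fintype.exists_ne_map_eq_of_card_lt
    (fun t : ZMod 2 × ZMod 2 × ZMod 2 => (f (s t), g (s t))) (by decide)
  have e : ¬ C D y (s t + s t') := by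
    intro h
    apply hne
    have h1 := F.vp _ h
    have h2 := F.vq _ h
    have h3 := F.vr _ h
    rw [map_add, (hs t).1, (hs t').1] at h1
    rw [map_add, (hs t).2.1, (hs t').2.1] at h2
    rw [map_add, (hs t).2.2, (hs t').2.2] at h3
    exact Prod.ext (zadd h1) (Prod.ext (zadd h2) (zadd h3))
  rw [Prod.mk.injEq] at e1
  have fe : f (s t + s t') = 0 := by rw [map_add, e1.1]; exact CharTwo.add_self_eq_zero _
  have ge : g (s t + s t') = 0 := by rw [map_add, e1.2]; exact CharTwo.add_self_eq_zero _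
  obtain ⟨h, h1, h2⟩ := exists_cut (K := ETAL.ann D y) (l := s t + s t') e
  refine ⟨h, F.mk' vf vg h2 f0 g0 ?_ fg ?_ ?_ ?_⟩
  · rintro rfl
    rw [LinearMap.zero_apply] at h1
    exact absurd h1 (by decide)
  · rintro rfl
    rw [fe] at h1
    exact absurd h1 (by decide)
  · rintro rfl
    rw [ge] at h1
    exact absurd h1 (by decide)
  · rintro rfl
    rw [LinearMap.add_apply, fe, ge] at h1
    exact absurd h1 (by decide)

/-- a nonzero functional is determined by two points -/
theorem uniq2 (F : Fr D y p q r) {f g : V →ₗ[ZMod 2] ZMod 2} (vf : ∀ v, C D y v → f v = 0)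
    (vg : ∀ v, C D y v → g v = 0) (f0 : f ≠ 0) (g0 : g ≠ 0) {a b : V} (ha : ¬ C D y a)
    (hb : ¬ C D y b) (hab : ¬ C D y (a + b)) (fa : f a = 0) (fb : f b = 0) (ga : g a = 0)
    (gb : g b = 0) : f = g := by
  by_contra fg
  obtain ⟨h, G⟩ := F.ext2 vf vg f0 g0 fg
  have h1 : h a = 1 := by
    rcases zm (h a) with h | h
    · exact absurd (G.ker _ fa ga h) ha
    · exact h
  have h2 : h b = 1 := by
    rcases zm (h b) with h | h
    · exact absurd (G.ker _ fb gb h) hb
    · exact h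
  apply hab
  apply G.ker
  · rw [map_add, fa, fb, add_zero]
  · rw [map_add, ga, gb, add_zero]
  · rw [map_add, h1, h2]; decide

end Fr

end Pool.Agent.ETH8
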