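import Pool.Agent.ETAL.Asm

/-!
# Hyperplane kinds at `y` (helper69, note ETC-69P): the local steps

`Kd D y x f`: `Q_x ∩ Q_y = Q_{x+y} ∩ Q_y = y (ker f)`, `f` a nonzero functional.
-/

set_option autoImplicit false
set_option linter.unusedSectionVars false
set_option linter.unusedSimpArgs false

namespace Pool.Agent.ETH8

open Pool.Agent.Helper58.PLine (QData zm zm_ne_zero)
open Pool.Agent.ETCP
open Pool.Agent.ETAL

variable {V Q : Type} [AddCommGroup V] [Module (ZMod 2) V] {D : QData V Q}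

/-- `x` has the hyperplane kind `f` at `y` -/
structure Kd (D : QData V Q) (y x : V) (f : V →ₗ[ZMod 2] ZMod 2) : Prop where
  ne : f ≠ 0
  up : ∀ v, f v = 0 → ∃ w, D.q y v = D.q x w
  dn : ∀ v w, D.q y v = D.q x w → f v = 0
  up' : ∀ v, f v = 0 → ∃ w, D.q y v = D.q (x + y) w
  dn' : ∀ v w, D.q y v = D.q (x + y) w → f v = 0

theorem s4 (x y : V) : x + y + x = y := by rw [add_comm x y, s2]

theorem add_eq_iff {a b c : V} (h : a + b = c) : a = c + b := by rw [← h, s2]

theorem zadd {a b : ZMod 2} (h : a + b = 0) : a = b := by revert a b; decide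

namespace Kd

variable {y x : V} {f : V →ₗ[ZMod 2] ZMod 2}

theorem swap (K : Kd D y x f) : Kd D y (x + y) f :=
  ⟨K.ne, K.up', K.dn', by rw [s2]; exact K.up, by rw [s2]; exact K.dn⟩

theorem vy (K : Kd D y x f) {v : V} (h : C D y v) : f v = 0 :=
  K.dn v 0 (by rw [q0]; exact h)

theorem self (K : Kd D y x f) : f x = 0 := K.dn x y (q_symm _ _)

theorem fy (K : Kd D y x f) (he : D.e = 0) : f y = 0 := K.vy (C.self he y)

theorem ann (K : Kd D y x f) {w : V} (h : C D x w) : f w = 0 := by
  apply K.dn' w w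
  apply q_eq'
  have : y + (x + y) = x := by rw [add_comm x y, s3]
  rwa [this]

theorem ext (K : Kd D y x f) {g : V →ₗ[ZMod 2] ZMod 2} (K' : Kd D y x g) : f = g := by
  apply LinearMap.ext
  intro v
  have h : f v = 0 ↔ g v = 0 := by
    constructor
    · intro h
      obtain ⟨w, e⟩ := K.up v h
      exact K'.dn v w e
    · intro h
      obtain ⟨w, e⟩ := K'.up v h
      exact K.dn v w e
  rcases zm (f v) with h1 | h1 <;> rcases zm (g v) with h2 | h2
  · rw [h1, h2]
  · rw [h.1 h1] at h2; exact absurd h2 (by decide)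
  · rw [h.2 h2] at h1; exact absurd h1 (by decide)
  · rw [h1, h2]

/-- an element of `V_x` with the same value at `y` -/
theorem com (K : Kd D y x f) {v : V} (h : f v = 0) : ∃ u, C D x u ∧ C D y (u + v) := by
  obtain ⟨w, e⟩ := K.up' v h
  obtain ⟨u, c1, c2, c3⟩ := lk e
  refine ⟨u, ?_, by rwa [add_comm]⟩
  have : y + (x + y) = x := by rw [add_comm x y, s3]
  rwa [this] at c3

/-- the type of a symbol -/
theorem typ (K : Kd D y x f) {w w' : V} (h : D.q x w = D.q x w') : f w = f w' := by
  have := K.ann (q_eq_iff.1 h)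
  rw [map_add] at this
  exact zadd this

theorem zero (K : Kd D y x f) {w h : V} (hh : f h = 0) (e : D.q x w = D.q y h) : f w = 0 := by
  obtain ⟨u, c1, c2, -⟩ := lk e
  have h1 := K.ann c1
  have h2 := K.vy c2
  rw [map_add] at h1 h2
  rw [hh, zero_add] at h2
  rwa [h2, add_zero] at h1

/-- the types of two elements of the same kind agree -/
theorem dich (K : Kd D y x f) {x' : V} (K' : Kd D y x' f) {z z' : V}
    (e : D.q x z = D.q x' z') : f z = f z' := by
  obtain ⟨u, c1, c2, -⟩ := lk e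
  have h1 := K.ann c1
  have h2 := K'.ann c2
  rw [map_add] at h1 h2
  rw [zadd h1, zadd h2]

/-- prescribing the value at `y` of the partner -/
theorem hit (K : Kd D y x f) {z a : V} (h : f z = f a) :
    ∃ z', C D y (z' + a) ∧ D.q x z' = D.q x z := by
  have h0 : f (z + a) = 0 := by
    rw [map_add, h]
    exact CharTwo.add_self_eq_zero _
  obtain ⟨u, c1, c2⟩ := K.com h0
  refine ⟨z + u, ?_, ?_⟩
  · have : z + u + a = u + (z + a) := by abel
    rwa [this]
  · apply mv
    have : z + u + z = u := s4 z u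
    rwa [this]

/-- change of the symbol inside the class -/
theorem move (K : Kd D y x f) {z x0 z0 z1 g : V} (h1 : D.q x z = D.q x0 z0) (hz : f z = 1)
    (h2 : D.q x0 (z0 + z1) = D.q y g) :
    ∃ x' z', Kd D y x' f ∧ (x' = x ∨ x' = x + y) ∧ D.q x' z' = D.q x0 z1 ∧ f z' = 1 := by
  obtain ⟨u, c1, c2, -⟩ := lk h1
  have e1 : D.q x u = D.q x0 u := by
    rw [← mv c1, h1, mv c2]
  have hu : f u = 1 := by
    have := K.ann c1
    rw [map_add, hz] at this
    rcases zm (f u) with h | h
    · rw [h] at this; exact absurd this (by decide)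
    · exact h
  have e2 : D.q x0 (u + z1) = D.q y g := by
    rw [← h2]
    apply mv
    have : u + z1 + (z0 + z1) = z0 + u := by
      have : u + z1 + (z0 + z1) = z0 + u + (z1 + z1) := by abel
      rw [this, ZModModule.add_self, add_zero]
    rwa [this]
  rcases zm (f g) with hg | hg
  · obtain ⟨w, e3⟩ := K.up g hg
    refine ⟨x, u + w, K, Or.inl rfl, ?_, ?_⟩
    · have := addr e1 (e3.symm.trans e2.symm)
      rwa [s3] at this
    · rw [map_add, hu, K.zero hg e3.symm, add_zero]
  · have h0 : f (u + g) = 0 := by rw [map_add, hu, hg]; decide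
    obtain ⟨u', c3, c4⟩ := K.com h0
    refine ⟨x + y, u + u', K.swap, Or.inr rfl, ?_, ?_⟩
    · have e3 : D.q x (u + u') = D.q x0 u := by
        rw [← e1]
        apply mv
        have : u + u' + u = u' := s4 u u'
        rwa [this]
      have e4 : D.q y (u + u') = D.q x0 (u + z1) := by
        rw [e2]
        apply mv
        have : u + u' + g = u' + (u + g) := by abel
        rwa [this]
      have := addl e3 e4
      rwa [s3] at this
    · rw [map_add, hu, K.ann c3, add_zero]

end Kd

/-- the kind `f` is exchanged at the symbol `b` -/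
def Dd (D : QData V Q) (y : V) (b : Q) (f : V →ₗ[ZMod 2] ZMod 2) : Prop :=
  ∃ x z, ¬ C D y x ∧ Kd D y x f ∧ D.q x z = b ∧ f z = 1

theorem Dd.kd {y : V} {b : Q} {f : V →ₗ[ZMod 2] ZMod 2} (h : Dd D y b f) :
    ∃ x, Kd D y x f := by
  obtain ⟨x, z, -, K, -⟩ := h
  exact ⟨x, K⟩

theorem Dd.vy {y : V} {b : Q} {f : V →ₗ[ZMod 2] ZMod 2} (h : Dd D y b f) {v : V}
    (hv : C D y v) : f v = 0 := by
  obtain ⟨x, K⟩ := h.kd
  exact K.vy hv

theorem Dd.ne {y : V} {b : Q} {f : V →ₗ[ZMod 2] ZMod 2} (h : Dd D y b f) : f ≠ 0 := by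
  obtain ⟨x, K⟩ := h.kd
  exact K.ne

/-- STEP 3 (A) -/
theorem stepA [Finite V] {y x k z0 : V} {b : Q} {f : V →ₗ[ZMod 2] ZMod 2} (he : D.e = 0)
    (hK : ∀ x, ¬ C D y x → ∃ f, Kd D y x f) (hx : ¬ C D y x) (K : Kd D y x f)
    (hb : D.q x z0 = b) (hz : f z0 = 1) (fk : f k = 0) (hkx : ¬ C D y (k + x)) :
    ∃ g, g ≠ f ∧ g k = 0 ∧ Dd D y b g := by
  obtain ⟨wk, ek⟩ := K.up k fk
  have exy : D.q x y = D.q y x := q_symm _ _
  set J : AddSubgroup V := adj (ETAL.ann D x) wk with hJ
  have hJ0 : ∀ v, C D x v → v ∈ J := fun v hv => Or.inl hv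
  have hyA : y ∈ adj J y := Or.inr (by rw [ZModModule.add_self]; exact J.zero_mem)
  have hyJ : y ∉ J := by
    rintro (h | h)
    · exact hx (mem_ann.1 h).symm
    · have e1 : D.q x y = D.q x wk := q_eq (mem_ann.1 h)
      rw [exy, ← ek] at e1
      exact hkx (by rw [add_comm]; exact q_eq_iff.1 e1)
  obtain ⟨x1, hx1, hc⟩ := alpha (D := D) (d := x) (e := y) (k := z0) (J := J) (A := adj J y)
    hJ0 (fun v hv => Or.inl hv) hyA hyJ
  have hwk : f wk = 0 := K.zero fk ek.symm
  have hfy : f y = 0 := K.fy he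
  have hfJ : ∀ v ∈ J, f v = 0 := by
    rintro v (h | h)
    · exact K.ann (mem_ann.1 h)
    · have := K.ann (mem_ann.1 h)
      rwa [map_add, hwk, add_zero] at this
  have f1 : f x1 = 1 := by
    rcases hx1 with h | h
    · have := hfJ _ h
      rw [map_add, hz] at this
      rcases zm (f x1) with h | h
      · rw [h] at this; exact absurd this (by decide)
      · exact h
    · have := hfJ _ h
      rw [map_add, map_add, hz, hfy, add_zero] at this
      rcases zm (f x1) with h | h
      · rw [h] at this; exact absurd this (by decide)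
      · exact h
  have hx1' : ¬ C D y x1 := fun h => by
    have := K.vy h
    rw [f1] at this
    exact absurd this (by decide)
  obtain ⟨g, Kg⟩ := hK x1 hx1'
  have gx : g x = 1 := by
    rcases zm (g x) with h | h
    · exfalso
      obtain ⟨w, e1⟩ := Kg.up x h
      refine hc w y (by rw [ZModModule.add_self]; exact J.zero_mem) ?_
      rw [q_symm w, ← e1, exy]
    · exact h
  have gk : g k = 0 := by
    rcases zm (g k) with h | h
    · exact h
    · exfalso
      obtain ⟨w, e1⟩ := Kg.up (x + k) (by rw [map_add, gx, h]; decide)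
      refine hc w (y + wk) ?_ ?_
      · rw [s4]
        exact Or.inr (by rw [ZModModule.add_self]; exact (ETAL.ann D x).zero_mem)
      · rw [q_symm w, ← e1]
        exact (addr exy ek.symm).symm
  refine ⟨g, ?_, gk, ?_⟩
  · rintro rfl
    rw [K.self] at gx
    exact absurd gx (by decide)
  · -- the difference of the two symbols
    obtain ⟨g0, e2⟩ : ∃ g0, D.q x (x1 + z0) = D.q y g0 := by
      rcases hx1 with (h | h) | (h | h)
      · exact ⟨0, by rw [q0]; exact mem_ann.1 h⟩
      · exact ⟨k, by rw [ek]; exact q_eq (mem_ann.1 h)⟩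
      · exact ⟨x, by rw [← exy]; exact q_eq (mem_ann.1 h)⟩
      · refine ⟨x + k, ?_⟩
        rw [← addr exy ek.symm]
        apply q_eq
        have := mem_ann.1 h
        rwa [add_assoc (x1 + z0)] at this
    obtain ⟨x', z', K', h1, h2, h3⟩ := Kg.move (x0 := x) (z0 := x1) (z1 := z0) (g := g0)
      (q_symm x1 x) gx e2
    refine ⟨x', z', ?_, K', by rw [h2, hb], h3⟩
    rcases h1 with rfl | rfl
    · exact hx1'
    · intro h
      apply hx1'
      have := h.add (C.self he y)
      rwa [s2] at this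

/-- STEP 3 (C3) -/
theorem stepC [Finite V] {y x z0 : V} {b : Q} {p q : V →ₗ[ZMod 2] ZMod 2}
    (K : Kd D y x (p + q)) (hb : D.q x z0 = b) (hp : Dd D y b p) (hq : Dd D y b q)
    (px : p x = 0) (qx : q x = 0) {e' : V} (pe : p e' = 1) (qe : q e' = 1)
    (sp : ∀ v, p v = 0 → q v = 0 → C D y v ∨ C D y (v + x)) : False := by
  have exy : D.q x y = D.q y x := q_symm _ _
  obtain ⟨we, ee⟩ := K.up e' (by rw [LinearMap.add_apply, pe, qe]; decide)
  set J : AddSubgroup V := adj (ETAL.ann D x) y with hJ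
  have hJ0 : ∀ v, C D x v → v ∈ J := fun v hv => Or.inl hv
  have hwA : we ∈ adj J we := Or.inr (by rw [ZModModule.add_self]; exact J.zero_mem)
  have hwJ : we ∉ J := by
    rintro (h | h)
    · have h1 : C D y e' := ee.trans (mem_ann.1 h)
      rw [hp.vy h1] at pe
      exact absurd pe (by decide)
    · have e1 : D.q x we = D.q x y := q_eq (mem_ann.1 h)
      rw [← ee, exy] at e1
      have := hp.vy (q_eq_iff.1 e1)
      rw [map_add, pe, px] at this
      exact absurd this (by decide)
  obtain ⟨x1, hx1, hc⟩ := alpha (D := D) (d := x) (e := we) (k := z0) (J := J) (A := adj J we)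
    hJ0 (fun v hv => Or.inl hv) hwA hwJ
  -- the difference of the two symbols
  obtain ⟨g0, e2⟩ : ∃ g0, D.q x (z0 + x1) = D.q y g0 := by
    rw [add_comm z0 x1]
    rcases hx1 with (h | h) | (h | h)
    · exact ⟨0, by rw [q0]; exact mem_ann.1 h⟩
    · exact ⟨x, by rw [← exy]; exact q_eq (mem_ann.1 h)⟩
    · exact ⟨e', by rw [ee]; exact q_eq (mem_ann.1 h)⟩
    · refine ⟨e' + x, ?_⟩
      rw [← addr ee.symm exy]
      apply q_eq
      have := mem_ann.1 h
      rwa [add_assoc (x1 + z0)] at this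
  have claim : ∀ r : V →ₗ[ZMod 2] ZMod 2, Dd D y b r → r x = 0 →
      ∃ g1 w, r g1 = 1 ∧ D.q x1 w = D.q y g1 := by
    intro r hr rx
    obtain ⟨v, z, -, Kv, h1, h2⟩ := hr
    obtain ⟨v', z', K', -, h3, h4⟩ := Kv.move (x0 := x) (z0 := z0) (z1 := x1) (g := g0)
      (h1.trans hb.symm) h2 e2
    obtain ⟨w, e3⟩ := K'.up x rx
    have hw : r w = 0 := K'.zero rx e3.symm
    have e4 : D.q v' (z' + w) = D.q (x1 + y) x := by
      rw [q_symm (x1 + y) x]
      exact addr h3 (e3.symm.trans exy.symm)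
    obtain ⟨u, c1, c2, -⟩ := lk e4
    have hu : r u = 1 := by
      have := K'.ann c1
      rw [map_add, map_add, h4, hw, add_zero] at this
      rcases zm (r u) with h | h
      · rw [h] at this; exact absurd this (by decide)
      · exact h
    refine ⟨x + u, x + u, ?_, q_eq' c2⟩
    rw [map_add, rx, hu, zero_add]
  obtain ⟨gp, wp, p1, e3⟩ := claim p hp px
  obtain ⟨gq, wq, q1, e4⟩ := claim q hq qx
  obtain ⟨g, w, pg, qg, e5⟩ : ∃ g w, p g = 1 ∧ q g = 1 ∧ D.q x1 w = D.q y g := by
    rcases zm (q gp) with h | h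
    · rcases zm (p gq) with h' | h'
      · exact ⟨gp + gq, wp + wq, by rw [map_add, p1, h', add_zero],
          by rw [map_add, q1, h, zero_add], addr e3 e4⟩
      · exact ⟨gq, wq, h', q1, e4⟩
    · exact ⟨gp, wp, p1, h, e3⟩
  rcases sp (g + e') (by rw [map_add, pg, pe]; decide) (by rw [map_add, qg, qe]; decide) with h | h
  · refine hc w we (by rw [ZModModule.add_self]; exact J.zero_mem) ?_
    rw [q_symm w, e5, ← ee]
    exact q_eq h
  · refine hc w (we + y) ?_ ?_
    · rw [s4]
      exact Or.inr (by rw [ZModModule.add_self]; exact (ETAL.ann D x).zero_mem)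
    · rw [q_symm w, e5, addr ee.symm exy]
      apply q_eq
      rwa [← add_assoc]

end Pool.Agent.ETH8
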